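import Mathlib
import Pool.Agent.TH792.VeeMain

/-! For an irreducible ∨-system `A` in dimension at least three there are, modulo the general
linear group of the dual space, only finitely many bijections of `A` onto irreducible ∨-systems
that preserve the matroid and the ν-function. -/

namespace Pool.Agent.Results.MP_de770b_mp.Finiteness

open Module Pool.Agent.TH792.Vee

/-- Up to `GL(V^*)` there are only finitely many irreducible ∨-systems with the matroid and the
ν-function of a given irreducible ∨-system `A` (together with the identification with `A`). -/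
theorem result {V : Type*} [AddCommGroup V] [Module ℝ V] [FiniteDimensional ℝ V]
    (hn : 3 ≤ finrank ℝ V) (A : Finset (Dual ℝ V)) (_hA : IsVeeSystem A)
    (_hirr : IsIrreducible A) :
    ∃ T : Finset (A → Dual ℝ V), (∀ ψ ∈ T, IsMatching A ψ) ∧
      ∀ φ : A → Dual ℝ V, IsMatching A φ →
        ∃ ψ ∈ T, ∃ g : Dual ℝ V ≃ₗ[ℝ] Dual ℝ V, ∀ a, φ a = g (ψ a) :=
  Pool.Agent.TH792.VeeMain.finiteness hn A

end Pool.Agent.Results.MP_de770b_mp.Finiteness
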