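import Mathlib
import Pool.Agent.TH792.VeeInf

/-! Infinitesimal rigidity of irreducible ∨-systems in all dimensions at least three. -/

namespace Pool.Agent.Results.MP_de770b_mp.InfinitesimalRigidity

open Module Pool.Agent.TH792.Vee

/-- Every first-order deformation with constant ν-function of an irreducible ∨-system in
dimension at least three is induced by a linear endomorphism of `V^*`. -/
theorem result {V : Type*} [AddCommGroup V] [Module ℝ V] [FiniteDimensional ℝ V]
    (hn : 3 ≤ finrank ℝ V) (A : Finset (Dual ℝ V)) (hA : IsVeeSystem A)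
    (hirr : IsIrreducible A) (δ : Dual ℝ V → Dual ℝ V) (ω : Dual ℝ V → V)
    (hdef : IsInfDef A δ ω) :
    ∃ L : Dual ℝ V →ₗ[ℝ] Dual ℝ V, ∀ α ∈ A, δ α = L α :=
  Pool.Agent.TH792.VeeInf.inf_rigid hn A hA hirr δ ω hdef

end Pool.Agent.Results.MP_de770b_mp.InfinitesimalRigidity
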