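import Mathlib
import Pool.Agent.TH792.VeeLocal

/-! Local version of the uniqueness question for ∨-systems, in all dimensions at least three. -/

namespace Pool.Agent.Results.MP_de770b_mp.LocalRigidity

open Module Pool.Agent.TH792.Vee

/-- Every irreducible ∨-system `A` in dimension at least three is locally rigid: an irreducible
∨-system that is close to `A` and has the matroid and the ν-function of `A` is the image of `A`
under an element of `GL(V^*)`. -/
theorem result {V : Type*} [AddCommGroup V] [Module ℝ V] [FiniteDimensional ℝ V]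
    (hn : 3 ≤ finrank ℝ V) (A : Finset (Dual ℝ V)) (hA : IsVeeSystem A)
    (hirr : IsIrreducible A) {κ : Type*} [Fintype κ] (b : Basis κ ℝ V) :
    ∃ ε > 0, ∀ φ : A → Dual ℝ V, IsMatching A φ →
      (∀ (a : A) (i : κ), |φ a (b i) - (a : Dual ℝ V) (b i)| < ε) →
      ∃ g : Dual ℝ V ≃ₗ[ℝ] Dual ℝ V, ∀ a : A, φ a = g a :=
  Pool.Agent.TH792.VeeLocal.rigidity hn A b _
    (Pool.Agent.TH792.VeeProj.matching_val A hA hirr)

end Pool.Agent.Results.MP_de770b_mp.LocalRigidity
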