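import Mathlib
import Pool.Agent.TH792.VeeProj

/-! Global uniqueness of ∨-systems with given matroid and ν-function inside one projective class. -/

namespace Pool.Agent.Results.MP_de770b_mp.ProjectiveUniqueness

open Module Pool.Agent.TH792.Vee

/-- If two irreducible ∨-systems in dimension at least three have the same matroid and the same
ν-function under `φ` and are projectively equivalent under `φ`, then, up to signs, `φ` is induced
by an element of `GL(V^*)`. -/
theorem result {V : Type*} [AddCommGroup V] [Module ℝ V] [FiniteDimensional ℝ V]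
    (hn : 3 ≤ finrank ℝ V) (A : Finset (Dual ℝ V)) (hA : IsVeeSystem A)
    (hirr : IsIrreducible A) (φ : A → Dual ℝ V) (hφ : IsMatching A φ)
    (h : Dual ℝ V ≃ₗ[ℝ] Dual ℝ V) (c : A → ℝ) (hc : ∀ a : A, φ a = c a • h a) :
    ∃ g : Dual ℝ V ≃ₗ[ℝ] Dual ℝ V, ∀ a : A, φ a = g a ∨ φ a = - g a :=
  Pool.Agent.TH792.VeeProj.projective_unique hn A hA hirr φ hφ h c hc

end Pool.Agent.Results.MP_de770b_mp.ProjectiveUniqueness
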